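import Pool.Agent.helper65.GD.SpecF

/-!
# Row `XZB` (Goodman's inequality for polynomials of close-to-convex functions, MP_ea335c_an)
-/

set_option autoImplicit false

namespace Pool.Agent.GD

open Finset Metric Filter Topology

namespace H64

theorem mom_norm_le {N : ℕ} (w : Fin N → ℝ) (x : Fin N → ℂ) (h : Atomic N w x) (m : ℕ) :
    ‖mom w x m‖ ≤ 1 := by
  obtain ⟨h0, h1, h2⟩ := h
  unfold mom
  calc ‖∑ l, (w l : ℂ) * x l ^ m‖ ≤ ∑ l, ‖(w l : ℂ) * x l ^ m‖ := norm_sum_le _ _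
    _ = ∑ l, w l := by
        refine Finset.sum_congr rfl fun l _ => ?_
        rw [norm_mul, norm_pow, h2 l, one_pow, mul_one, Complex.norm_real, Real.norm_eq_abs,
          abs_of_nonneg (h0 l)]
    _ = 1 := h1

theorem ZZ_zero (g ω : ℕ → ℂ) (y : ℂ) (A : ℕ) : ZZ g ω y A 0 = g A * ω 0 := by
  simp [ZZ, gy_zero]

theorem ZZ_succ (g ω : ℕ → ℂ) (y : ℂ) (A r : ℕ) :
    ZZ g ω y A (r + 1) = y * ZZ g ω y A r + CC g ω A (r + 1) := by
  unfold ZZ CC
  rw [Finset.sum_range_succ' _ (r + 1), Finset.sum_range_succ' _ (r + 1), gy_zero, Finset.mul_sum]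
  have h : ∑ k ∈ range (r + 1), g (A + (r + 1) - (k + 1)) * gy ω y (k + 1)
      = ∑ i ∈ range (r + 1), y * (g (A + r - i) * gy ω y i)
        + ∑ k ∈ range (r + 1), g (A + (r + 1) - (k + 1)) * ω (k + 1) := by
    rw [← Finset.sum_add_distrib]
    refine Finset.sum_congr rfl fun i _ => ?_
    rw [gy_succ, show A + (r + 1) - (i + 1) = A + r - i by omega]
    ring
  rw [h, add_assoc]

theorem ex_one (s : ℂ) (β : ℕ → ℂ) : ex s β 1 = s * β 1 := by
  have h := (ex_rec s β).2 1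
  simp only [Finset.sum_range_one, Nat.cast_one, one_mul, Nat.sub_zero, ex_zero, mul_one] at h
  exact h

theorem CC_one (g β : ℕ → ℂ) (A : ℕ) : CC g (ex (-2) β) A 1 = g (A + 1) - 2 * β 1 * g A := by
  unfold CC
  rw [Finset.sum_range_succ, Finset.sum_range_one, ex_zero, ex_one, Nat.sub_zero,
    show A + 1 - 1 = A by omega]
  ring

end H64

open H64 in
theorem XZB (h1 : XGR_stmt) (h2 : XZ1_stmt) (h3 : XHK_stmt) : XZB_stmt := by
  intro N w x y A hA hy hA1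
  have hb : ∀ m, ‖mom w x m‖ ≤ 1 := mom_norm_le w x hA
  have hz0 : ‖ZZ (ex 2 (mom w x)) (ex (-2) (mom w x)) y A 0‖ ≤ A + 1 := by
    rw [ZZ_zero, ex_zero, mul_one]
    exact h1 _ hb A
  refine ⟨hz0, ?_⟩
  intro r hr
  induction r, hr using Nat.le_induction with
  | base =>
    have e : ZZ (ex 2 (mom w x)) (ex (-2) (mom w x)) y A 1
        = y * ZZ (ex 2 (mom w x)) (ex (-2) (mom w x)) y A 0
          + CC (ex 2 (mom w x)) (ex (-2) (mom w x)) A 1 := ZZ_succ _ _ _ _ 0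
    rw [e]
    have hc : ‖CC (ex 2 (mom w x)) (ex (-2) (mom w x)) A 1‖ ≤ A := by
      rw [CC_one]
      exact h2 N w x A hA
    have hn := norm_add_le (y * ZZ (ex 2 (mom w x)) (ex (-2) (mom w x)) y A 0)
      (CC (ex 2 (mom w x)) (ex (-2) (mom w x)) A 1)
    rw [norm_mul, hy, one_mul] at hn
    push_cast
    have : (A : ℝ) * (A + 1) / 2 * (1 - ‖mom w x 1‖ ^ 2) * ((1 - 1) * (1 + 6) / 6) = 0 := by ring
    rw [this]
    linarith
  | succ r hr ih =>
    rw [ZZ_succ]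
    have hc := h3 N w x A (r + 1) hA hA1 (by omega)
    have hn := norm_add_le (y * ZZ (ex 2 (mom w x)) (ex (-2) (mom w x)) y A r)
      (CC (ex 2 (mom w x)) (ex (-2) (mom w x)) A (r + 1))
    rw [norm_mul, hy, one_mul] at hn
    push_cast at hc ⊢
    have e : 2 * (A : ℝ) + 1 + (A : ℝ) * (A + 1) / 2 * (1 - ‖mom w x 1‖ ^ 2)
          * (((r : ℝ) + 1 - 1) * (r + 1 + 6) / 6)
        = (2 * (A : ℝ) + 1 + (A : ℝ) * (A + 1) / 2 * (1 - ‖mom w x 1‖ ^ 2)
          * (((r : ℝ) - 1) * (r + 6) / 6))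
          + (A : ℝ) * (A + 1) / 2 * (1 - ‖mom w x 1‖ ^ 2) * (((r : ℝ) + 1 + 2) / 3) := by ring
    rw [e]
    linarith

end Pool.Agent.GD
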